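import Pool.Agent.Lib.MP_2710d6_gt.HC.Main

/-! A critical point of Donaldson's energy on the four-torus that is not the minimum. -/

open MeasureTheory
open scoped Manifold ContDiff

namespace Pool.Agent.Results.MP_2710d6_gt.HigherCritical

open Pool.Agent.DonHK

theorem result : ∃ (_ : ChartedSpace Pt (Fin 4 → UnitAddCircle))
    (_ : IsManifold 𝓘(ℝ, Pt) ∞ (Fin 4 → UnitAddCircle))
    (Ω : Fin 3 → Form2 (Fin 4 → UnitAddCircle)) (μ : Measure (Fin 4 → UnitAddCircle))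
    (ρ : Form2 (Fin 4 → UnitAddCircle)),
    Closed2 (Ω 0) ∧ (∀ i, Sm2 (Ω i)) ∧
      (∀ i j x, quot (Ω 0) (Ω i) (Ω j) x = if i = j then 2 else 0) ∧ IsVol (Ω 0) μ ∧
      Closed2 ρ ∧ (∀ x, 0 < quot (Ω 0) ρ ρ x) ∧ Exact (fun x => lin (ρ x) (Ω 0 x) (-1)) ∧
      IsCritical Ω μ ρ ∧ energy Ω μ (Ω 0) < energy Ω μ ρ :=
  ⟨tcs, tman, DonHC.Om, DonHC.mu, DonHC.fm DonHC.AR, DonHC.cl0, DonHC.smO, DonHC.gram, DonHC.vol,
    DonHC.clR, fun x => (DonHC.qRR x).symm ▸ two_pos, DonHC.exact, DonHC.crit, DonHC.gap⟩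

end Pool.Agent.Results.MP_2710d6_gt.HigherCritical
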