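import Pool.Agent.Lib.MP_2710d6_gt.KS.Class
import Pool.Agent.Lib.MP_2710d6_gt.KS.Torus
import Pool.Agent.Lib.MP_2710d6_gt.KS.Proj

/-! Critical points of Donaldson's energy on a closed Kaehler surface of nonnegative scalar
curvature. -/

open MeasureTheory
open scoped Manifold ContDiff

namespace Pool.Agent.Results.MP_2710d6_gt.KaehlerEnergy

open Pool.Agent.DonHK (Pt lin Form2 Closed2 Exact quot IsVol)
open Pool.Agent.DonKS

theorem result {M : Type} [TopologicalSpace M] [T2Space M] [CompactSpace M] [ConnectedSpace M]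
    [ChartedSpace Pt M] [IsManifold 𝓘(ℝ, Pt) ∞ M] [MeasurableSpace M] [BorelSpace M]
    (J : End1 M) (Ω : Form2 M) (hΩ : IsKaehler J Ω) (μ : Measure M) (hμ : IsVol Ω μ)
    (hs : ∀ p : M, ∀ y ∈ (chartAt Pt p).target, 0 ≤ scal Ω p y)
    (ρ : Form2 M) (hρ : Closed2 ρ) (hpos : ∀ x, 0 < quot Ω ρ ρ x) :
    List.TFAE [IsCritical J Ω μ ρ,
      Closed2 (hol J Ω ρ) ∧ ∃ b c : ℝ, ∀ x,
        quot Ω ρ Ω x = b * quot Ω ρ ρ x ∧ sdTwo J Ω ρ x = c * quot Ω ρ ρ x ^ 2,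
      ∀ σ : Form2 M, Closed2 σ → (∀ x, 0 < quot Ω σ σ x) →
        Exact (fun x => lin (σ x) (ρ x) (-1)) → σ ≠ ρ → energy J Ω μ ρ < energy J Ω μ σ] := by
  have e : ∀ σ : Form2 M, (fun x => lin (σ x) (ρ x) (-1)) = σ - ρ := fun σ => by
    ext x u v
    change σ x u v + -1 * ρ x u v = σ x u v - ρ x u v
    ring
  simp only [e]
  tfae_have 1 ↔ 2 := classify hΩ hμ hs hρ hpos
  tfae_have 1 ↔ 3 := ⟨fun hc _ => strict_min hΩ hμ hs hρ hpos hc, crit_of_min hΩ hμ hρ hpos⟩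
  tfae_finish

/-- In the class of `Ω` the only critical point is `Ω` itself. -/
theorem only_minimum {M : Type} [TopologicalSpace M] [T2Space M] [CompactSpace M]
    [ConnectedSpace M] [ChartedSpace Pt M] [IsManifold 𝓘(ℝ, Pt) ∞ M] [MeasurableSpace M]
    [BorelSpace M] (J : End1 M) (Ω : Form2 M) (hΩ : IsKaehler J Ω) (μ : Measure M)
    (hμ : IsVol Ω μ) (hs : ∀ p : M, ∀ y ∈ (chartAt Pt p).target, 0 ≤ scal Ω p y)
    (ρ : Form2 M) (hρ : Closed2 ρ) (hpos : ∀ x, 0 < quot Ω ρ ρ x) (ha : Exact (ρ - Ω)) :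
    IsCritical J Ω μ ρ ↔ ρ = Ω := by
  obtain ⟨h0, h1⟩ := crit_self hΩ hμ
  refine ⟨fun hc => by_contra fun hne => ?_, fun e => e ▸ h1⟩
  exact lt_asymm (strict_min hΩ hμ hs hΩ.2.1 h0 h1 hρ hpos ha hne)
    (strict_min hΩ hμ hs hρ hpos hc hΩ.2.1 h0 (neg_sub ρ Ω ▸ ha.neg) (Ne.symm hne))

/-- The hypotheses are met by the flat torus `(ℝ / ℤ) ^ 4`. -/
theorem flat_torus : ∃ (_ : ChartedSpace Pt (Fin 4 → UnitAddCircle))
    (_ : IsManifold 𝓘(ℝ, Pt) ∞ (Fin 4 → UnitAddCircle)) (J : End1 (Fin 4 → UnitAddCircle))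
    (Ω : Form2 (Fin 4 → UnitAddCircle)) (μ : Measure (Fin 4 → UnitAddCircle)),
    IsKaehler J Ω ∧ IsVol Ω μ ∧ ∀ p, ∀ y ∈ (chartAt Pt p).target, 0 ≤ scal Ω p y :=
  torus

/-- The hypotheses are met by the product of two round spheres. -/
theorem two_spheres [MeasurableSpace (OnePoint ℂ × OnePoint ℂ)]
    [BorelSpace (OnePoint ℂ × OnePoint ℂ)] : ∃ (_ : ChartedSpace Pt (OnePoint ℂ × OnePoint ℂ))
    (_ : IsManifold 𝓘(ℝ, Pt) ∞ (OnePoint ℂ × OnePoint ℂ)) (J : End1 (OnePoint ℂ × OnePoint ℂ))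
    (Ω : Form2 (OnePoint ℂ × OnePoint ℂ)) (μ : Measure (OnePoint ℂ × OnePoint ℂ)),
    IsKaehler J Ω ∧ IsVol Ω μ ∧ ∀ p, ∀ y ∈ (chartAt Pt p).target, 0 < scal Ω p y :=
  sphere

/-- The hypotheses are met by the complex projective plane. -/
theorem projective_plane : ∃ (M : Type) (_ : TopologicalSpace M) (_ : T2Space M)
    (_ : CompactSpace M) (_ : ConnectedSpace M) (_ : ChartedSpace Pt M)
    (_ : IsManifold 𝓘(ℝ, Pt) ∞ M) (_ : MeasurableSpace M) (_ : BorelSpace M)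
    (π : {v : Fin 3 → ℂ // v ≠ 0} → M) (J : End1 M) (Ω : Form2 M) (μ : Measure M),
    Topology.IsQuotientMap π ∧ (∀ v w, π v = π w ↔ ∃ c : ℂ, c • v.1 = w.1) ∧ IsKaehler J Ω ∧
      IsVol Ω μ ∧ ∀ p, ∀ y ∈ (chartAt Pt p).target, 0 < scal Ω p y :=
  Proj.proj

end Pool.Agent.Results.MP_2710d6_gt.KaehlerEnergy
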