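import Pool.Agent.Lib.MP_2710d6_gt.PM.Main

/-! A pinched critical point of Donaldson's energy is an absolute minimum in its class, for every
almost Hermitian metric. -/

open MeasureTheory
open scoped Manifold ContDiff

namespace Pool.Agent.Results.MP_2710d6_gt.PinchedMinimum

open Pool.Agent.DonHK (Pt lin Form2 Closed2 Exact quot IsVol)
open Pool.Agent.DonKS
open Pool.Agent.DonPM (IsHermitian)

theorem result {M : Type} [TopologicalSpace M] [T2Space M] [CompactSpace M]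
    [ChartedSpace Pt M] [IsManifold 𝓘(ℝ, Pt) ∞ M] [MeasurableSpace M] [BorelSpace M]
    (J : End1 M) (Ω : Form2 M) (hΩ : IsHermitian J Ω) (μ : Measure M) (hμ : IsVol Ω μ)
    (ρ : Form2 M) (hρ : Closed2 ρ) (hpos : ∀ x, 0 < quot Ω ρ ρ x) (hc : IsCritical J Ω μ ρ)
    (c : ℝ) (h1 : ∀ x, sdTwo J Ω ρ x - 2 * quot Ω ρ ρ x ≤ c * quot Ω ρ ρ x ^ 2)
    (h2 : ∀ x, c * quot Ω ρ ρ x ^ 2 ≤ sdTwo J Ω ρ x)
    (σ : Form2 M) (hσ : Closed2 σ) (hs : ∀ x, 0 < quot Ω σ σ x)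
    (he : Exact fun x => lin (σ x) (ρ x) (-1)) : energy J Ω μ ρ ≤ energy J Ω μ σ := by
  have e : (fun x => lin (σ x) (ρ x) (-1)) = σ - ρ := by
    ext x u v
    change σ x u v + -1 * ρ x u v = σ x u v - ρ x u v
    ring
  exact DonPM.main hΩ hμ hρ.sm hpos hc h1 h2 hσ.sm hs (e ▸ he)

/-- If `Ω` is closed, a pinched critical point in the class of `Ω` is `Ω` itself. -/
theorem class_of_omega {M : Type} [TopologicalSpace M] [T2Space M] [CompactSpace M]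
    [ChartedSpace Pt M] [IsManifold 𝓘(ℝ, Pt) ∞ M] [MeasurableSpace M] [BorelSpace M]
    (J : End1 M) (Ω : Form2 M) (hΩ : IsHermitian J Ω) (h0 : Closed2 Ω) (μ : Measure M)
    (hμ : IsVol Ω μ) (ρ : Form2 M) (hρ : Closed2 ρ) (hpos : ∀ x, 0 < quot Ω ρ ρ x)
    (hc : IsCritical J Ω μ ρ) (c : ℝ)
    (h1 : ∀ x, sdTwo J Ω ρ x - 2 * quot Ω ρ ρ x ≤ c * quot Ω ρ ρ x ^ 2)
    (h2 : ∀ x, c * quot Ω ρ ρ x ^ 2 ≤ sdTwo J Ω ρ x)
    (he : Exact fun x => lin (Ω x) (ρ x) (-1)) : ρ = Ω := by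
  have e : (fun x => lin (Ω x) (ρ x) (-1)) = Ω - ρ := by
    ext x u v
    change Ω x u v + -1 * ρ x u v = Ω x u v - ρ x u v
    ring
  exact DonPM.eq_of_le hΩ hμ hρ.sm hpos (e ▸ he) (result J Ω hΩ μ hμ ρ hρ hpos hc c h1 h2 Ω h0
    (fun x => (DonPM.point2 hΩ hρ.sm x).1.symm ▸ two_pos) he)

/-- Every Kaehler surface is almost Hermitian in the sense used here. -/
theorem kaehler {M : Type} [TopologicalSpace M] [ChartedSpace Pt M] [IsManifold 𝓘(ℝ, Pt) ∞ M]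
    (J : End1 M) (Ω : Form2 M) (h : IsKaehler J Ω) : IsHermitian J Ω :=
  DonPM.of_kaehler h

end Pool.Agent.Results.MP_2710d6_gt.PinchedMinimum
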